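import Pool.Agent.H11.PP.Bridge

/-!
# Pro-`p` groups with `r(G) = d(G)^2/4`, `d(G) > 2` contain a nonabelian free pro-`p` subgroup

The proof (all steps are in `Pool/Agent/H11/PP` and `Pool/Agent/H31/GS`).

1. (`H31/GS`) If `4 r ≤ d^2` then `dim F_p[[G]]/I^(n+1) ≥ (n+1)(d/2)^n ≥ 2^n`; so for every `n`
   all small enough open normal `N` satisfy `dim F_p[G/N]/I^(n+1) ≥ 2^n` (`gs_link`).
2. (`top_part`) If `G` contains no free pro-`p` group of rank two, then by the Baire category
   theorem there are a nonzero leading form `lam` of degree `m + 1` in the group algebra of the
   abstract free group, a pair `x` in the third dimension subgroup, and `K`, such that in every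
   small quotient `H` of `G` for all `z` in `(D_K H)^2` some word with leading form `lam` vanishes
   at `z * x`.
3. (`lemmaN`, `tuple_nest`) Perturbing `x` at `m` quickly increasing scales and in all higher
   layers, a nested pigeonhole argument on the truncated Fox derivatives of the words gives nested
   subspaces of small codimension of Lie elements `u_1, ..., u_m` such that the multilinearised
   form `T = lam(u_1, ..., u_m)` acts with small rank on all layers of the Lie algebra of `H`
   (adjoint action).
4. (`propD`) Hence, if `l_m, ..., l_1` are Lyndon words (outside small exceptional sets), the
   word `l_m ... l_1` can be replaced by larger words in the adjoint action up to small rank; the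
   words without such factors have small growth (`lemmaC`, combinatorics of Lyndon words by
   induction on `m` over block alphabets), which gives an upper bound for the growth of the Lie
   algebra, and then of the group algebra (`partE`), contradicting step 1 (`bootstrap`).
-/

namespace Pool.Agent.Results.MP_debe6c_al.FreeProPSubgroup

open Pool.Agent.H11.PP.ProP

/-- A topologically finitely generated pro-`p` group `G` with `d(G) > 2` and `r(G) = d(G)^2/4`
contains a closed subgroup which is a free pro-`p` group of rank two. -/
theorem result {p : ℕ} [Fact p.Prime] {G : Type*} [Group G] [TopologicalSpace G]
    (hG : IsProP p G) (hfg : TopFG G) (hd : 2 < dRank p G)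
    (hr : 4 * rRank p G = dRank p G ^ 2) : HasFreeProP p G :=
  main' hG hfg hd hr

end Pool.Agent.Results.MP_debe6c_al.FreeProPSubgroup
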